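import Pool.Agent.H16.HH.Fin

/-!
# Hyperelliptic Hodge integrals: exact degree and positivity
-/

set_option autoImplicit false

open Finset

namespace Pool.Agent.Results.MP_54d171_ag.ExactDegree

open Pool.Agent.H16.HH

/-- Let `D` and `d` be the hyperelliptic Hodge integrals with `N` classes `λ`, and let
`i = (i_1, …, i_N)` be any multi-index, `|i| = i_1 + ⋯ + i_N`. Then the polynomials
`P_i(g) = 2 ^ (|i| + 1) D_(i),2g+2` and `P̃_i(g) = 2 ^ (|i| + 1) d_(i),2g+2` are of degree exactly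
`2|i|`, with leading coefficient `1 / (i_1! ⋯ i_N!)`. If `c` are the coefficients of one of them in
the basis of the binomial coefficients then `c k ≥ 0` for all `k`, `c k > 0` for `|i| ≤ k ≤ 2|i|`,
`c k = 0` for `k > 2|i|`, and `c (2|i|) = (2|i|)! / (i_1! ⋯ i_N!)`. -/
theorem result (N : ℕ) (H : HodgeIntegrals N) (i : Fin N → ℕ) :
    (∃ P : Polynomial ℚ, (∀ g : ℕ, 1 ≤ g → P.eval (g : ℚ) = 2 ^ (∑ j, i j + 1) * H.D i g) ∧
      P.natDegree = 2 * ∑ j, i j ∧ P.leadingCoeff = 1 / ∏ j, ((i j).factorial : ℚ)) ∧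
    (∃ P : Polynomial ℚ, (∀ g : ℕ, P.eval (g : ℚ) = 2 ^ (∑ j, i j + 1) * H.d i g) ∧
      P.natDegree = 2 * ∑ j, i j ∧ P.leadingCoeff = 1 / ∏ j, ((i j).factorial : ℚ)) ∧
    ∀ (c : ℕ → ℚ) (M : ℕ), (∀ k, M < k → c k = 0) →
      (∀ g : ℕ, 1 ≤ g → 2 ^ (∑ j, i j + 1) * H.D i g =
        ∑ k ∈ range (g + 1), c k * (g.choose k : ℚ)) ∨
      (∀ g : ℕ, 1 ≤ g → 2 ^ (∑ j, i j + 1) * H.d i g =
        ∑ k ∈ range (g + 1), c k * (g.choose k : ℚ)) →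
      (∀ k, 0 ≤ c k) ∧ (∀ k, ∑ j, i j ≤ k → k ≤ 2 * ∑ j, i j → 0 < c k) ∧
      (∀ k, 2 * ∑ j, i j < k → c k = 0) ∧
      c (2 * ∑ j, i j) = ((2 * ∑ j, i j).factorial : ℚ) / ∏ j, ((i j).factorial : ℚ) := by
  obtain ⟨⟨P, hP1, hP2, hP3⟩, hPc⟩ := (rep_p H _ i rfl).concl (top_ne i)
  obtain ⟨⟨Q, hQ1, hQ2, hQ3⟩, hQc⟩ := (rep_q H _ i rfl).concl (top_ne i)
  have hpv : ∀ g : ℕ, 1 ≤ g → pv H i g = 2 ^ (∑ j, i j + 1) * H.D i g := by
    intro g hg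
    unfold pv
    rw [if_neg (by omega)]
  rw [top_div] at hP3 hQ3
  refine ⟨⟨P, fun g hg => by rw [hP1, hpv g hg], hP2, hP3⟩, ⟨Q, fun g => by rw [hQ1]; rfl,
    hQ2, hQ3⟩, fun c M hM h => ?_⟩
  rcases h with h | h
  · exact hPc c M hM fun g hg => by rw [hpv g hg, h g hg]; rfl
  · exact hQc c M hM fun g hg => h g hg

end Pool.Agent.Results.MP_54d171_ag.ExactDegree
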