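import Pool.Agent.H16.HH.One
import Pool.Agent.H16.HH.Fin

/-!
# Hyperelliptic Hodge integrals with one class: log-concavity
-/

set_option autoImplicit false

open Finset

namespace Pool.Agent.Results.MP_54d171_ag.OneClass

open Pool.Agent.H16.HH

theorem coef_supp (α i : ℕ) : ∀ k, 2 * i < k → coef α i k = 0 := by
  induction i with
  | zero => intro k hk; simp only [coef]; rw [if_neg (by omega)]
  | succ i ih =>
    intro k hk
    obtain ⟨k, rfl⟩ : ∃ m, k = m + 2 := ⟨k - 2, by omega⟩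
    simp only [coef, step]
    rw [ih (k + 1) (by omega), ih k (by omega), mul_zero, mul_zero, add_zero]

theorem main (α i : ℕ) (c : ℕ → ℤ) (M : ℕ) (hM : ∀ k, M < k → c k = 0)
    (hc : ∀ g : ℕ, 1 ≤ g → ((∑ s ∈ (range g).powersetCard i, ∏ j ∈ s, (2 * j + α) : ℕ) : ℤ) =
      ∑ k ∈ range (g + 1), c k * (g.choose k : ℤ)) :
    (∀ k, 0 ≤ c k) ∧ ∀ j k, j ≤ k → c j * c (k + 2) ≤ c (j + 1) * c (k + 1) := by
  have h : (fun k => (c k : ℚ)) = fun k => (coef α i k : ℚ) := by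
    refine bexp_unique _ _ M (2 * i) (fun k hk => ?_) (fun k hk => ?_) fun g hg => ?_
    · rw [hM k hk, Int.cast_zero]
    · rw [coef_supp α i k hk, Nat.cast_zero]
    · have h1 := hc g hg
      have h2 := bin_coef α i g
      have h3 : (∑ s ∈ (range g).powersetCard i, ∏ j ∈ s, (2 * j + α) : ℕ) = bin (coef α i) g :=
        h2.symm
      rw [h3] at h1
      unfold bin at h1
      unfold bexp
      beta_reduce
      exact_mod_cast h1.symm
  have h' : ∀ k, c k = (coef α i k : ℤ) := by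
    intro k
    have := congrFun h k
    beta_reduce at this
    exact_mod_cast this
  refine ⟨fun k => ?_, fun j k hjk => ?_⟩
  · rw [h' k]
    exact Int.natCast_nonneg _
  · rw [h' j, h' (k + 2), h' (j + 1), h' (k + 1)]
    exact_mod_cast slc_coef α i j k hjk

/-- Let `c` be the coefficients of `P_(i)(g) = e_i(1, 3, …, 2 g - 1)` or of
`P̃_(i)(g) = e_i(2, 4, …, 2 g)` in the basis of the binomial coefficients. Then `c` is a
log-concave sequence of non-negative numbers without internal zeros: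
`c j * c (k + 2) ≤ c (j + 1) * c (k + 1)` for `j ≤ k`. -/
theorem result (i : ℕ) (c : ℕ → ℤ) (M : ℕ) (hM : ∀ k, M < k → c k = 0)
    (hc : (∀ g : ℕ, 1 ≤ g → ((∑ s ∈ (range g).powersetCard i, ∏ j ∈ s, (2 * j + 1) : ℕ) : ℤ) =
        ∑ k ∈ range (g + 1), c k * (g.choose k : ℤ)) ∨
      (∀ g : ℕ, 1 ≤ g → ((∑ s ∈ (range g).powersetCard i, ∏ j ∈ s, (2 * j + 2) : ℕ) : ℤ) =
        ∑ k ∈ range (g + 1), c k * (g.choose k : ℤ))) :
    (∀ k, 0 ≤ c k) ∧ (∀ k, 1 ≤ k → c (k - 1) * c (k + 1) ≤ c k ^ 2) ∧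
      ∀ j k, j ≤ k → c j * c (k + 2) ≤ c (j + 1) * c (k + 1) := by
  have h : (∀ k, 0 ≤ c k) ∧ ∀ j k, j ≤ k → c j * c (k + 2) ≤ c (j + 1) * c (k + 1) := by
    rcases hc with hc | hc
    · exact main 1 i c M hM hc
    · exact main 2 i c M hM hc
  refine ⟨h.1, fun k hk => ?_, h.2⟩
  obtain ⟨m, rfl⟩ : ∃ m, k = m + 1 := ⟨k - 1, by omega⟩
  rw [pow_two]
  exact h.2 m m le_rfl

end Pool.Agent.Results.MP_54d171_ag.OneClass
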